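import Pool.Agent.H7.LD.Stmts

/-!
# Board ia13, row CST: cliques which leave a set with small total deficit
-/

set_option autoImplicit false

open Finset

namespace Pool.LD7

open Pool.Agent.H23.KT Pool.Agent.H46.KW Pool.KQ Pool.GT7 Pool.GU7 Pool.HZ7 Pool.IA7

lemma cst_swap {V : Type} [Fintype V] [DecidableEq V] (G : SimpleGraph V) (S : Finset V) :
    ∑ q ∈ univ \ S, (nb G S q).card = ∑ z ∈ S, (nb G (univ \ S) z).card := by
  classical
  have h1 : ∀ q : V, (nb G S q).card = ∑ z ∈ S, if G.Adj q z then 1 else 0 := by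
    intro q
    unfold nb
    rw [card_filter]
  have h2 : ∀ z : V, (nb G (univ \ S) z).card = ∑ q ∈ univ \ S, if G.Adj q z then 1 else 0 := by
    intro z
    unfold nb
    rw [card_filter]
    refine sum_congr rfl fun q _ => ?_
    by_cases h : G.Adj q z
    · simp [h, h.symm]
    · have h' : ¬ G.Adj z q := fun h3 => h h3.symm
      simp [h, h']
  rw [sum_congr rfl (fun q _ => h1 q), sum_congr rfl (fun z _ => h2 z), sum_comm]

theorem CST_thm (hR : CRTStmt) : CSTStmt := by
  intro p w r M hw hrp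
  refine ⟨(M : ℝ) ^ (w + 2) + (M : ℝ) ^ 2 * (2 * (p : ℝ) + 4) ^ w + 1, by positivity, ?_⟩
  intro a ha V _ _ G S hG hdl hM
  have hC := (hR G S ∅ w ((p + 3) * a + r) hw (empty_subset _) hG.deg).1
  have hc : ∑ z ∈ S, (nb G (univ \ S) z).card ≤ M :=
    le_trans (sum_le_sum hdl) hM
  have hn : ∑ q ∈ univ \ S, (nb G S q).card ≤ M := by rw [cst_swap]; exact hc
  have h1 : ∑ q ∈ univ \ S, kc G (nb G S q) (w + 2) ≤ M ^ (w + 2) := by
    calc ∑ q ∈ univ \ S, kc G (nb G S q) (w + 2)
        ≤ ∑ q ∈ univ \ S, (nb G S q).card * M ^ (w + 1) := by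
          refine sum_le_sum fun q hq => ?_
          have h2 : (nb G S q).card ≤ M :=
            le_trans (single_le_sum (f := fun q => (nb G S q).card) (fun _ _ => Nat.zero_le _) hq) hn
          calc kc G (nb G S q) (w + 2) ≤ (nb G S q).card.choose (w + 2) := kc_le_choose G _ _
            _ ≤ (nb G S q).card ^ (w + 2) := Nat.choose_le_pow _ _
            _ = (nb G S q).card * (nb G S q).card ^ (w + 1) := by ring
            _ ≤ (nb G S q).card * M ^ (w + 1) :=
                Nat.mul_le_mul_left _ (Nat.pow_le_pow_left h2 _)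
      _ = (∑ q ∈ univ \ S, (nb G S q).card) * M ^ (w + 1) := by rw [sum_mul]
      _ ≤ M * M ^ (w + 1) := Nat.mul_le_mul_right _ hn
      _ = M ^ (w + 2) := by ring
  have hΔ : (p + 3) * a + r ≤ (2 * p + 4) * a := by
    have : r ≤ (p + 1) * a := le_trans hrp (Nat.le_mul_of_pos_right (p + 1) ha)
    calc (p + 3) * a + r ≤ (p + 3) * a + (p + 1) * a := Nat.add_le_add_left this _
      _ = (2 * p + 4) * a := by ring
  have h2 : ∑ z ∈ S \ ∅, (nb G (univ \ S) z).card ^ 2 * ((p + 3) * a + r) ^ w ≤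
      M ^ 2 * ((2 * p + 4) * a) ^ w := by
    rw [sdiff_empty]
    calc ∑ z ∈ S, (nb G (univ \ S) z).card ^ 2 * ((p + 3) * a + r) ^ w
        ≤ ∑ z ∈ S, (nb G (univ \ S) z).card * (M * ((2 * p + 4) * a) ^ w) := by
          refine sum_le_sum fun z hz => ?_
          have h3 : (nb G (univ \ S) z).card ≤ M :=
            le_trans (single_le_sum (f := fun z => (nb G (univ \ S) z).card)
              (fun _ _ => Nat.zero_le _) hz) hc
          calc (nb G (univ \ S) z).card ^ 2 * ((p + 3) * a + r) ^ w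
              = (nb G (univ \ S) z).card *
                ((nb G (univ \ S) z).card * ((p + 3) * a + r) ^ w) := by ring
            _ ≤ (nb G (univ \ S) z).card * (M * ((2 * p + 4) * a) ^ w) :=
                Nat.mul_le_mul_left _ (Nat.mul_le_mul h3 (Nat.pow_le_pow_left hΔ _))
      _ = (∑ z ∈ S, (nb G (univ \ S) z).card) * (M * ((2 * p + 4) * a) ^ w) := by rw [sum_mul]
      _ ≤ M * (M * ((2 * p + 4) * a) ^ w) := Nat.mul_le_mul_right _ hc
      _ = M ^ 2 * ((2 * p + 4) * a) ^ w := by ring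
  simp only [sum_empty, add_zero] at hC
  have h3 : kc G univ (w + 3) ≤ kc G (univ \ S) (w + 3) + kc G S (w + 3) + M ^ (w + 2) +
      M ^ 2 * ((2 * p + 4) * a) ^ w := by omega
  have h4 : (kc G univ (w + 3) : ℝ) ≤ kc G (univ \ S) (w + 3) + kc G S (w + 3) +
      (M : ℝ) ^ (w + 2) + (M : ℝ) ^ 2 * ((2 * (p : ℝ) + 4) * a) ^ w := by exact_mod_cast h3
  have ha1 : (1 : ℝ) ≤ (a : ℝ) ^ w := one_le_pow₀ (by exact_mod_cast ha)
  have h5 : (M : ℝ) ^ (w + 2) ≤ (M : ℝ) ^ (w + 2) * (a : ℝ) ^ w :=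
    le_mul_of_one_le_right (by positivity) ha1
  rw [mul_pow] at h4
  nlinarith [h4, h5, ha1]

end Pool.LD7
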